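import Pool.Agent.Helper83.OP.PlanarDraw

set_option autoImplicit false

/-!
A graph with curves in the plane for its edges such that the curves of vertex-disjoint edges are
disjoint has no `K₃₃` minor.
-/

namespace Pool.Agent.Helper92.CD

open Set Pool.Agent.Helper83.OP

/-- `G` has a `K₃₃` minor (the form of the frozen statement S07363) -/
def HasM33 {V : Type} (G : SimpleGraph V) : Prop :=
  ∃ f g : Fin 3 → Set V,
          (∀ i : Fin 3, (G.induce (f i)).Connected) ∧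
          (∀ i : Fin 3, (G.induce (g i)).Connected) ∧
          (∀ i j : Fin 3, i ≠ j → Disjoint (f i) (f j)) ∧
          (∀ i j : Fin 3, i ≠ j → Disjoint (g i) (g j)) ∧
          (∀ i j : Fin 3, Disjoint (f i) (g j)) ∧
          (∀ i j : Fin 3, ∃ x : V, x ∈ f i ∧ ∃ y : V, y ∈ g j ∧ G.Adj x y)

theorem conn_walk {V : Type} (G : SimpleGraph V) (B : Set V) (hB : (G.induce B).Connected)
    (s t : V) (hs : s ∈ B) (ht : t ∈ B) : ∃ p : G.Walk s t, ∀ x ∈ p.support, x ∈ B := by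
  have key : ∀ s t : B, ∀ _ : (G.induce B).Walk s t,
      ∃ q : G.Walk s.1 t.1, ∀ x ∈ q.support, x ∈ B := by
    intro s t p
    induction p with
    | nil =>
      rename_i u
      exact ⟨SimpleGraph.Walk.nil, fun x hx => by
        rw [SimpleGraph.Walk.support_nil, List.mem_singleton] at hx
        rw [hx]
        exact u.2⟩
    | @cons u v w h q ih =>
      obtain ⟨q', hq'⟩ := ih
      have h' : G.Adj u.1 v.1 := h
      refine ⟨SimpleGraph.Walk.cons h' q', ?_⟩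
      intro x hx
      rw [SimpleGraph.Walk.support_cons, List.mem_cons] at hx
      rcases hx with rfl | hx
      · exact u.2
      · exact hq' x hx
  obtain ⟨p⟩ := hB.preconnected ⟨s, hs⟩ ⟨t, ht⟩
  exact key _ _ p

theorem not_hasM33 {V : Type} (G : SimpleGraph V) (P : V → ℂ) (c : V → V → ℝ → ℂ)
    (hc : ∀ u v, G.Adj u v → ContinuousOn (c u v) (Icc 0 1))
    (h0 : ∀ u v, G.Adj u v → c u v 0 = P u) (h1 : ∀ u v, G.Adj u v → c u v 1 = P v)
    (hd : ∀ u v x y, G.Adj u v → G.Adj x y → u ≠ x → u ≠ y → v ≠ x → v ≠ y →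
      ∀ r ∈ Icc (0 : ℝ) 1, ∀ t ∈ Icc (0 : ℝ) 1, c u v r ≠ c x y t) : ¬ HasM33 G := by
  rintro ⟨f, g, hf, hg, hff, hgg, hfg, hadj⟩
  have ha : ∀ i, ∃ a, a ∈ f i := fun i => by
    obtain ⟨⟨r, hr⟩⟩ := (hf i).nonempty
    exact ⟨r, hr⟩
  have hb : ∀ i, ∃ a, a ∈ g i := fun i => by
    obtain ⟨⟨r, hr⟩⟩ := (hg i).nonempty
    exact ⟨r, hr⟩
  choose a ha using ha
  choose b hb using hb
  have hL : ∀ i j, ∃ k : ℝ → ℂ, ContinuousOn k (Icc 0 1) ∧ k 0 = P (a i) ∧ k 1 = P (b j) ∧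
      ∀ x ∈ Icc (0 : ℝ) 1, ∃ s t, G.Adj s t ∧ s ∈ f i ∪ g j ∧ t ∈ f i ∪ g j ∧
        ∃ y ∈ Icc (0 : ℝ) 1, k x = c s t y := by
    intro i j
    obtain ⟨x, hx, y, hy, hxy⟩ := hadj i j
    obtain ⟨p, hp⟩ := conn_walk G (f i) (hf i) (a i) x (ha i) hx
    obtain ⟨q, hq⟩ := conn_walk G (g j) (hg j) y (b j) hy (hb j)
    have hne : a i ≠ b j := by
      intro he
      exact Set.disjoint_left.mp (hfg i j) (ha i) (he ▸ hb j)
    obtain ⟨k, hk, hk0, hk1, hk2⟩ := walk_curve G P (fun s t _ => c s t) hc h0 h1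
      (p.append (SimpleGraph.Walk.cons hxy q)) hne
    have hsupp : ∀ z ∈ (p.append (SimpleGraph.Walk.cons hxy q)).support, z ∈ f i ∪ g j := by
      intro z hz
      rw [SimpleGraph.Walk.mem_support_append_iff, SimpleGraph.Walk.support_cons,
        List.mem_cons] at hz
      rcases hz with hz | hz | hz
      · exact Or.inl (hp z hz)
      · subst hz
        exact Or.inl hx
      · exact Or.inr (hq z hz)
    refine ⟨k, hk, hk0, hk1, ?_⟩
    intro z hz
    obtain ⟨s, t, hst, hs, ht, _, y, hy, hgy⟩ := hk2 z hz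
    exact ⟨s, t, hst, hsupp s hs, hsupp t ht, y, hy, hgy⟩
  choose k hk hk0 hk1 hk2 using hL
  refine no_K33 (fun i => P (a i)) (fun j => P (b j)) k hk hk0 hk1 ?_
  intro i j i' j' hi hj x hx x' hx' heq
  obtain ⟨s, t, hst, hs, ht, y, hy, hky⟩ := hk2 i j x hx
  obtain ⟨s', t', hst', hs', ht', y', hy', hky'⟩ := hk2 i' j' x' hx'
  rw [hky, hky'] at heq
  have hdis : ∀ z ∈ f i ∪ g j, ∀ z' ∈ f i' ∪ g j', z ≠ z' := by
    rintro z (hz | hz) z' (hz' | hz') he
    · exact Set.disjoint_left.mp (hff i i' hi) hz (he ▸ hz')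
    · exact Set.disjoint_left.mp (hfg i j') hz (he ▸ hz')
    · exact Set.disjoint_left.mp (hfg i' j) (he ▸ hz') hz
    · exact Set.disjoint_left.mp (hgg j j' hj) hz (he ▸ hz')
  exact hd s t s' t' hst hst' (hdis _ hs _ hs') (hdis _ hs _ ht') (hdis _ ht _ hs')
    (hdis _ ht _ ht') y hy y' hy' heq

/-- the complex plane and `ℝ × ℝ` -/
def toC (p : ℝ × ℝ) : ℂ := ⟨p.1, p.2⟩

theorem toC_inj : Function.Injective toC := by
  intro p q h
  have h1 : p.1 = q.1 := congrArg Complex.re h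
  have h2 : p.2 = q.2 := congrArg Complex.im h
  exact Prod.ext h1 h2

theorem toC_cont : Continuous toC := by
  have : toC = fun p : ℝ × ℝ => (p.1 : ℂ) + (p.2 : ℂ) * Complex.I := by
    funext p
    apply Complex.ext <;> simp [toC]
  rw [this]
  fun_prop

theorem not_hasM33_R {V : Type} (G : SimpleGraph V) (P : V → ℝ × ℝ) (c : V → V → ℝ → ℝ × ℝ)
    (hc : ∀ u v, G.Adj u v → ContinuousOn (c u v) (Icc 0 1))
    (h0 : ∀ u v, G.Adj u v → c u v 0 = P u) (h1 : ∀ u v, G.Adj u v → c u v 1 = P v)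
    (hd : ∀ u v x y, G.Adj u v → G.Adj x y → u ≠ x → u ≠ y → v ≠ x → v ≠ y →
      ∀ r ∈ Icc (0 : ℝ) 1, ∀ t ∈ Icc (0 : ℝ) 1, c u v r ≠ c x y t) : ¬ HasM33 G := by
  refine not_hasM33 G (fun v => toC (P v)) (fun u v t => toC (c u v t)) ?_ ?_ ?_ ?_
  · intro u v h
    exact toC_cont.comp_continuousOn (hc u v h)
  · intro u v h
    simp only [h0 u v h]
  · intro u v h
    simp only [h1 u v h]
  · intro u v x y h h' e1 e2 e3 e4 r hr t ht he
    exact hd u v x y h h' e1 e2 e3 e4 r hr t ht (toC_inj he)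

/-- the drawing of S06929 -/
theorem not_hasM33_of_drawing {V : Type} (G : SimpleGraph V)
    (h : ∃ p : V → ℝ × ℝ, Function.Injective p ∧
      ∃ γ : V → V → ℝ → ℝ × ℝ,
        (∀ u v : V, G.Adj u v →
            ContinuousOn (γ u v) (Set.Icc (0:ℝ) 1) ∧
            Set.InjOn (γ u v) (Set.Icc (0:ℝ) 1) ∧
            γ u v 0 = p u ∧ γ u v 1 = p v) ∧
        (∀ u v w : V, ∀ r ∈ Set.Icc (0:ℝ) 1,
            G.Adj u v → γ u v r = p w → w = u ∨ w = v) ∧
        (∀ u v x y : V, ∀ r ∈ Set.Icc (0:ℝ) 1, ∀ t ∈ Set.Icc (0:ℝ) 1,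
            G.Adj u v → G.Adj x y → Sym2.mk (u, v) ≠ Sym2.mk (x, y) →
            γ u v r = γ x y t → ∃ w : V, γ u v r = p w)) : ¬ HasM33 G := by
  obtain ⟨p, -, γ, h1, h2, h3⟩ := h
  refine not_hasM33_R G p γ (fun u v h => (h1 u v h).1) (fun u v h => (h1 u v h).2.2.1)
    (fun u v h => (h1 u v h).2.2.2) ?_
  intro u v x y huv hxy e1 e2 e3 e4 r hr t ht he
  obtain ⟨w, hw⟩ := h3 u v x y r hr t ht huv hxy (by
    intro h
    apply e1
    have h5 := congrFun h (u, v)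
    simp only [Sym2.eq_iff, Prod.mk.injEq] at h5
    tauto) he
  rcases h2 u v w r hr huv hw with h5 | h5 <;> rcases h2 x y w t ht hxy (he ▸ hw) with h6 | h6
  · exact e1 (h5.symm.trans h6)
  · exact e2 (h5.symm.trans h6)
  · exact e3 (h5.symm.trans h6)
  · exact e4 (h5.symm.trans h6)

/-- the drawing of S09939 -/
theorem not_hasM33_of_paths {V : Type} (G : SimpleGraph V)
    (h : ∃ f : V → ℝ × ℝ, Function.Injective f ∧ ∃ γ : ∀ u v : V, Path (f u) (f v),
      (∀ u v w : V, G.Adj u v → f w ∈ Set.range ⇑(γ u v) → w = u ∨ w = v) ∧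
      (∀ u v w x : V, G.Adj u v → G.Adj w x → s(u, v) ≠ s(w, x) →
        Set.range ⇑(γ u v) ∩ Set.range ⇑(γ w x) ⊆ {f u, f v})) : ¬ HasM33 G := by
  obtain ⟨f, -, γ, h2, h3⟩ := h
  have hmem : ∀ u v, ∀ r ∈ Icc (0 : ℝ) 1, (γ u v).extend r ∈ Set.range ⇑(γ u v) := by
    intro u v r hr
    rw [Path.extend_apply _ hr]
    exact ⟨_, rfl⟩
  refine not_hasM33_R G f (fun u v => (γ u v).extend) (fun u v _ => (γ u v).continuous_extend.continuousOn)
    (fun u v _ => (γ u v).extend_zero) (fun u v _ => (γ u v).extend_one) ?_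
  intro u v x y huv hxy e1 e2 e3 e4 r hr t ht he
  have hne : s(u, v) ≠ s(x, y) := by
    intro h
    rcases Sym2.eq_iff.1 h with ⟨h5, -⟩ | ⟨h5, -⟩
    · exact e1 h5
    · exact e2 h5
  have hin : (γ u v).extend r ∈ Set.range ⇑(γ x y) := by
    rw [he]
    exact hmem x y t ht
  rcases h3 u v x y huv hxy hne ⟨hmem u v r hr, hin⟩ with h4 | h4
  · rw [h4] at hin
    rcases h2 x y u hxy hin with h5 | h5
    · exact e1 h5
    · exact e2 h5
  · rw [Set.mem_singleton_iff] at h4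
    rw [h4] at hin
    rcases h2 x y v hxy hin with h5 | h5
    · exact e3 h5
    · exact e4 h5

end Pool.Agent.Helper92.CD
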