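import Pool.Agent.Helper17.CA.GraphAll

set_option autoImplicit false

/-!
A stacked graph contains a triangle; the two forms of the set of Hamilton cycles.
-/

namespace Pool.Agent.Helper92.CD

open Set Pool.Agent.Helper17.CA

theorem tri_of_stack {V : Type} [Fintype V] [DecidableEq V] (G : SimpleGraph V)
    (h : StackG G) : ∃ a b c : V, G.Adj a b ∧ G.Adj b c ∧ G.Adj a c := by
  obtain ⟨n, Γ, h0, -, hs, ⟨e⟩⟩ := h
  suffices H : ∃ a b c, (Γ n).Adj a b ∧ (Γ n).Adj b c ∧ (Γ n).Adj a c by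
    obtain ⟨a, b, c, h1, h2, h3⟩ := H
    exact ⟨e.symm a, e.symm b, e.symm c, e.symm.map_adj_iff.2 h1, e.symm.map_adj_iff.2 h2,
      e.symm.map_adj_iff.2 h3⟩
  rcases n with _ | k
  · rw [h0]
    refine ⟨(0 : Fin 4), (1 : Fin 4), (2 : Fin 4), ?_, ?_, ?_⟩ <;>
      · rw [SimpleGraph.top_adj]
        decide
  · obtain ⟨f, v, hv, -, -, ht, -⟩ := hs k (Nat.lt_succ_self k)
    obtain ⟨x, y, z, hxy, hxz, hyz, hset⟩ := Set.ncard_eq_three.1 hv
    have hm : ∀ w ∈ ({x, y, z} : Set _), f w = v := by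
      intro w hw
      rw [← hset] at hw
      exact hw
    have hx := hm x (by simp)
    have hy := hm y (by simp)
    have hz := hm z (by simp)
    exact ⟨x, y, z, ht x y hxy hx hy, ht y z hyz hy hz, ht x z hxz hx hz⟩

theorem hamS_ncard {V : Type} [Fintype V] [DecidableEq V] (G : SimpleGraph V) :
    {E : Finset (Sym2 V) | ∃ (u : V) (c : G.Walk u u),
        c.IsHamiltonianCycle ∧ c.edges.toFinset = E}.ncard = (HamS G).ncard := by
  have h : HamS G = (fun E : Finset (Sym2 V) => (E : Set (Sym2 V))) ''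
      {E : Finset (Sym2 V) | ∃ (u : V) (c : G.Walk u u),
        c.IsHamiltonianCycle ∧ c.edges.toFinset = E} := by
    ext s
    constructor
    · rintro ⟨u, p, hp, rfl⟩
      exact ⟨p.edges.toFinset, ⟨u, p, hp, rfl⟩, by ext e; simp⟩
    · rintro ⟨E, ⟨u, p, hp, rfl⟩, rfl⟩
      exact ⟨u, p, hp, by ext e; simp⟩
  rw [h, Set.ncard_image_of_injective _ Finset.coe_injective]

end Pool.Agent.Helper92.CD
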