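import Pool.Agent.Helper58.CA.Conv

set_option autoImplicit false

/-!
Proper 3-edge-colourings and unique 3-edge-colourability (the text of S09939).
-/

namespace Pool.Agent.Helper92.CD

/-- `c` is a proper 3-edge-colouring of `G` -/
def PC {V : Type} (G : SimpleGraph V) (c : Sym2 V → Fin 3) : Prop :=
  ∀ u v w : V, G.Adj u v → G.Adj u w → v ≠ w → c s(u, v) ≠ c s(u, w)

/-- `G` is uniquely 3-edge-colourable -/
def UC {V : Type} (G : SimpleGraph V) : Prop :=
  ∃ c : Sym2 V → Fin 3, PC G c ∧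
    ∀ c' : Sym2 V → Fin 3, PC G c' →
      ∃ σ : Equiv.Perm (Fin 3), ∀ e ∈ G.edgeSet, c' e = σ (c e)

end Pool.Agent.Helper92.CD
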